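import Pool.Agent.Y7.AN.Stm

/-!
Analytic bounds for weak and smooth local solutions with small dissipation (helper302, job
AN-FINL; after helper7's `t_WDER` and `TH305.DR.loc_all`).
-/

set_option autoImplicit false
set_option linter.unusedVariables false

open MeasureTheory Set Metric Filter Topology
open scoped ContDiff

namespace Pool.Agent.Y302.AN

section real

lemma fin_real {c1 Hc D c F : ℝ} (hc1 : 1 ≤ c1) (hHc : 1 ≤ Hc) (hD : 0 ≤ D) (hF : 0 ≤ F)
    (hc : c = 2 * c1 + Hc + D + 1) (n : ℕ) :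
    (c1 ^ (n + 1) * F) ^ 2 ≤ (c ^ (n + 1) * F) ^ 2 ∧
      2 * (c1 ^ (n + 1) * F) ^ 2 ≤ (c ^ (n + 1) * F) ^ 2 ∧
        D * (Hc ^ n * F) ^ 2 ≤ (c ^ (n + 1) * F) ^ 2 := by
  have h0 : (0 : ℝ) ≤ c1 := by linarith
  have h0' : (0 : ℝ) ≤ Hc := by linarith
  have hcc : 1 ≤ c := by linarith
  have hc0 : 0 ≤ c := by linarith
  have hb : (2 * c1) ^ (n + 1) ≤ c ^ (n + 1) := pow_le_pow_left₀ (by positivity) (by linarith) _
  have hb2 : 2 * c1 ^ (n + 1) ≤ c ^ (n + 1) := by
    refine le_trans ?_ hb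
    rw [mul_pow]
    apply mul_le_mul_of_nonneg_right _ (by positivity)
    calc (2 : ℝ) = 2 ^ 1 := by norm_num
      _ ≤ 2 ^ (n + 1) := pow_le_pow_right₀ (by norm_num) (by omega)
  have hp : 0 ≤ c1 ^ (n + 1) := by positivity
  have h2 : 2 * (c1 ^ (n + 1) * F) ^ 2 ≤ (c ^ (n + 1) * F) ^ 2 := by
    rw [mul_pow, mul_pow, ← mul_assoc]
    apply mul_le_mul_of_nonneg_right _ (sq_nonneg F)
    calc 2 * (c1 ^ (n + 1)) ^ 2 ≤ (2 * c1 ^ (n + 1)) ^ 2 := by nlinarith [sq_nonneg (c1 ^ (n + 1))]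
      _ ≤ (c ^ (n + 1)) ^ 2 := pow_le_pow_left₀ (by positivity) hb2 2
  refine ⟨?_, h2, ?_⟩
  · nlinarith [sq_nonneg (c1 ^ (n + 1) * F)]
  · rw [mul_pow, mul_pow, ← mul_assoc]
    apply mul_le_mul_of_nonneg_right _ (sq_nonneg F)
    have e : (c ^ (n + 1)) ^ 2 = (c * c) * (c ^ n) ^ 2 := by ring
    rw [e]
    have h3 : (Hc ^ n) ^ 2 ≤ (c ^ n) ^ 2 :=
      pow_le_pow_left₀ (by positivity) (pow_le_pow_left₀ h0' (by linarith) n) 2
    have h4 : D ≤ c * c := by nlinarith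
    exact mul_le_mul h4 h3 (by positivity) (by positivity)

end real

section weak

open H459R3.NS W221.NS Pool.Agent.TH305.DR Pool.Agent.Y7.WD Pool.Agent.Y7.AN Pool.Agent.Y8
open Pool.Agent.Y7
open Pool.Agent.W583.MD (sm_pd cs_pd pd_mul' Z Z.add Z.sub Z.smul Z.sum int_cs Z_pd hcs)
open Pool.Agent.W639.MH (int_ball)

theorem t_wdera (h1 : S_EAW) (h2 : S_PTA) (h3 : S_HARA) : S_WDERA := by
  obtain ⟨g, C0, hC0, hg⟩ := W221.NS.B.p_green
  obtain ⟨C', hC', H⟩ := Pool.Agent.Y8.B.p_whyp g C0 hg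
  obtain ⟨CD, hCD, Dec⟩ := W221.NS.B.p_dec g C0 hg
  obtain ⟨ε, CL, hε, hCL, L⟩ := Pool.Agent.Y8.B.p_wloc2
  obtain ⟨K, hK⟩ : ∃ x : ℝ, x = CL + ε + 4 * (ε / C') := ⟨_, rfl⟩
  have hεC : 0 < ε / C' := by positivity
  have hK0 : 0 ≤ K := by rw [hK]; positivity
  obtain ⟨A₀, hA₀, HEA⟩ := h1 K hK0
  obtain ⟨c1, hc1, HPT⟩ := h2 K A₀ hK0 hA₀
  obtain ⟨CH, Hc, hCH, hHc, HCH⟩ := h3
  have hD0 : 0 ≤ 48 * CH * CD ^ 2 := by positivity
  obtain ⟨c, hc⟩ : ∃ x : ℝ, x = 2 * c1 + Hc + 48 * CH * CD ^ 2 + 1 := ⟨_, rfl⟩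
  refine ⟨ε / C', hεC, c, by rw [hc]; linarith,
    fun Hs v q k hL hint hsmall n t ht ht32 x hx => ?_⟩
  have hle : C' * ∫ t in Ioo (-1) 0, B2 0 8 (v t) ≤ ε := by
    calc C' * ∫ t in Ioo (-1) 0, B2 0 8 (v t) ≤ C' * (ε / C') := by gcongr
      _ = ε := by field_simp
  obtain ⟨F, hH⟩ := H Hs v q k hL ε hint hle
  have hW := L Hs v _ F k _ hH
  obtain ⟨M0, hM0⟩ := hH.fld.bd
  have hM00 : 0 ≤ M0 := (norm_nonneg _).trans (hM0 0 ⟨by norm_num, le_rfl⟩ 0)
  have hsv : ∀ i, ContDiffOn ℝ ∞ (fun z : ℝ × V => v z.1 z.2 i) (Hs ×ˢ univ) := fun i =>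
    comp_joint hL.smooth_v i
  have hv : ∀ τ ∈ Hs, ∀ i, ContDiff ℝ ∞ (fun y => v τ y i) := fun τ hτ i =>
    sl (f := fun t y => v t y i) (hsv i) hτ
  have hW' : ∀ τ ∈ Hs, ∀ i, ContDiff ℝ ∞ (fun y => TT g (v τ) y i) := fun τ hτ i =>
    sl (f := fun t y => TT g (v t) y i)
      (comp_joint (u := fun t => TT g (v t)) hH.smooth_W i) hτ
  have hB0 : ∀ t, 0 ≤ B2 0 8 (v t) := fun t => integral_nonneg fun x =>
    Finset.sum_nonneg fun i _ => Finset.sum_nonneg fun j _ => sq_nonneg _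
  have hBc : ContinuousOn (fun t => B2 0 8 (v t)) Hs :=
    pint_cont (F := fun t x => gsq (v t) x) hL.openH (gsq_joint hL.openH hL.smooth_v).continuousOn
      0 8
  obtain ⟨G, hG⟩ : ∃ G : ℝ → ℝ, G = fun t => min (C' * B2 0 8 (v t)) (M0 ^ 2) := ⟨_, rfl⟩
  have hG0 : ∀ t, 0 ≤ G t := fun t => by
    rw [hG]
    exact le_min (by
      have := hB0 t
      positivity) (sq_nonneg _)
  have hG1 : ∀ t, G t ≤ C' * B2 0 8 (v t) := fun t => by
    rw [hG]
    exact min_le_left _ _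
  have hsub16 : Ioo (-1 / 16 : ℝ) 0 ⊆ Ioo (-1) 0 := Ioo_subset_Ioo_left (by norm_num)
  have hint16 : IntegrableOn (fun t => B2 0 8 (v t)) (Ioo (-1 / 16) 0) := hint.mono_set hsub16
  have hI16 : ∫ t in Ioo (-1 / 16) 0, B2 0 8 (v t) ≤ ε / C' :=
    (setIntegral_mono_set hint (Eventually.of_forall fun t => hB0 t)
      hsub16.eventuallyLE).trans hsmall
  have hGc : ContinuousOn G Hs := by
    rw [hG]
    exact (continuousOn_const.mul hBc).inf continuousOn_const
  have hlapH : ∀ t ∈ Hs, ∀ x ∈ ball (0 : V) (1 / 4), ∀ i,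
      lap (fun y => v t y i - TT g (v t) y i) x = 0 := by
    intro t ht x hx i
    obtain ⟨P, hP⟩ := hH.slice t ht
    have h1 := hP.lapD x (ball_subset_ball (by norm_num) hx) i
    have b3 : lap (fun y => v t y i - TT g (v t) y i) x
        = lap (fun y => v t y i) x - lap (fun y => TT g (v t) y i) x := by
      unfold lap
      rw [← Finset.sum_sub_distrib]
      refine Finset.sum_congr rfl fun j _ => ?_
      rw [pd_sub' (hv t ht i) (hW' t ht i), pd_sub' (sm_pd (hv t ht i) j) (sm_pd (hW' t ht i) j)]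
    rw [b3, h1, sub_self]
  have hWK : WK K (M0 ^ 2) Hs v (fun t => TT g (v t)) G k := by
    refine ⟨hL.openH, hL.subH, hL.fullH, hsv, ?_, ?_, hGc, ?_, ?_, ?_, ?_, hL.kint, hL.knn, ?_⟩
    · intro t ht x i j
      exact vort_eqH hL.openH hL.subH hsv hL.smooth_q hL.momentum ht x i j
    · intro t ht ht16
      refine ⟨hv t ht, hW' t ht, ?_, hlapH t ht, ?_, ?_, hG0 t⟩
      · intro x hx i
        exact lap_div (hv t ht) (fun x _ => hL.divfree t ht x)
          (ball_subset_ball (by norm_num) hx) i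
      · intro x hx i
        have := hW t ht ht16 x hx i
        rw [hK]
        linarith
      · intro x hx i
        obtain ⟨P, hP⟩ := hH.slice t ht
        have hx1 : x ∈ ball (0 : V) 1 := ball_subset_ball (by norm_num) hx
        have h1 := hP.dD x hx1 i
        have h2 : |v t x i - TT g (v t) x i| ≤ M0 := by
          rw [← hH.eqF t ht x hx1 i]
          have h3 := hM0 t ⟨(hL.subH ht).1.le, (hL.subH ht).2.le⟩ x
          exact (norm_le_pi_norm (F t x) i).trans h3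
        apply Real.le_sqrt_of_sq_le
        rw [hG]
        apply le_min
        · have h4 : 0 ≤ C' * B2 0 8 (v t) := by
            have := hB0 t
            positivity
          calc |v t x i - TT g (v t) x i| ^ 2 ≤ √(C' * B2 0 8 (v t)) ^ 2 :=
                pow_le_pow_left₀ (abs_nonneg _) h1 2
            _ = C' * B2 0 8 (v t) := Real.sq_sqrt h4
        · exact pow_le_pow_left₀ (abs_nonneg _) h2 2
    · intro t _
      rw [hG]
      exact min_le_right _ _
    · have hiG : IntegrableOn G (Ioo (-1 / 16) 0) :=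
        int_le hL.openH hL.fullH hsub16 measurableSet_Ioo hGc (hint16.const_mul C')
          fun τ _ _ => by
            rw [abs_of_nonneg (hG0 τ)]
            exact hG1 τ
      refine (integral_mono hiG (hint16.const_mul C') fun τ => hG1 τ).trans ?_
      rw [integral_const_mul, hK]
      have h5 : C' * ∫ t in Ioo (-1 / 16) 0, B2 0 8 (v t) ≤ C' * (ε / C') := by gcongr
      have h6 : C' * (ε / C') = ε := by field_simp
      linarith
    · refine int_le hL.openH hL.fullH hsub16 measurableSet_Ioo ?_ (hint16.const_mul 4)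
        fun τ _ hτ => ?_
      · exact continuousOn_finsetSum _ fun p _ =>
          ct_N' (w := fun t => Om p.1 p.2 (v t)) hL.openH 0 (1 / 4)
            (om_joint hL.openH hsv p.1 p.2)
      · rw [abs_of_nonneg (NT_nonneg _ _ _)]
        exact NT0_le (hv τ hτ)
    · have hiN : IntegrableOn (fun t => NT 0 (1 / 4) (v t)) (Ioo (-1 / 16) 0) := by
        refine int_le hL.openH hL.fullH hsub16 measurableSet_Ioo ?_ (hint16.const_mul 4)
          fun τ _ hτ => ?_
        · exact continuousOn_finsetSum _ fun p _ =>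
            ct_N' (w := fun t => Om p.1 p.2 (v t)) hL.openH 0 (1 / 4)
              (om_joint hL.openH hsv p.1 p.2)
        · rw [abs_of_nonneg (NT_nonneg _ _ _)]
          exact NT0_le (hv τ hτ)
      refine (int_mono hL.fullH hsub16 measurableSet_Ioo hiN (hint16.const_mul 4)
        fun τ _ hτ => NT0_le (hv τ hτ)).trans ?_
      rw [integral_const_mul, hK]
      linarith
    · intro ε' κ hε' hκ i
      exact md_WL2 hL hε' hκ i
  have ht16 : -1 / 16 < t := by linarith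
  have hA0 : 0 ≤ A2 0 4 (v t) := integral_nonneg fun x => Finset.sum_nonneg fun i _ => sq_nonneg _
  have hEA := HEA _ Hs v _ _ _ hWK
  have htH : t ∈ Hs ∩ Ioo (-3 / 64) 0 := ⟨ht, by linarith, (hL.subH ht).2⟩
  have hP := HPT _ v _ _ hEA n t htH ht32 x hx
  have hf0 : (0 : ℝ) ≤ n.factorial := Nat.cast_nonneg _
  obtain ⟨r1, r2, r3⟩ := fin_real hc1 hHc hD0 hf0 hc n
  refine ⟨hP.1.trans r1, ?_⟩
  have h1 := WD.SV_split n (hWK.sd t ht ht16) x
  have h2 := hP.2
  have h3 : SV n (fun y i => v t y i - TT g (v t) y i) x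
      ≤ 24 * (CH * (Hc ^ n * n.factorial) ^ 2) * CD ^ 2 * A2 0 4 (v t) := by
    have p3 : 0 ≤ CH * (Hc ^ n * n.factorial) ^ 2 := by positivity
    have h4 : ∀ i, SS n (fun y => v t y i - TT g (v t) y i) x
        ≤ CH * (Hc ^ n * n.factorial) ^ 2 * (8 * (CD ^ 2 * A2 0 4 (v t))) := by
      intro i
      have hs : ContDiff ℝ ∞ (fun y => v t y i - TT g (v t) y i) :=
        (hv t ht i).sub (hW' t ht i)
      refine (HCH n _ hs (fun x hx => hlapH t ht x hx i) x
        (ball_subset_ball (by norm_num) hx)).trans ?_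
      apply mul_le_mul_of_nonneg_left _ p3
      apply N0_le (by norm_num) (by positivity) hs
      intro y hy
      have h5 := ((Dec (v t) (contDiff_pi.2 (hv t ht)) (fun x _ => hL.divfree t ht x)).2.2.2 y
        (ball_subset_ball (by norm_num) hy) i).1
      have h6 : CD ^ 2 * A2 0 4 (v t) = (CD * √(A2 0 4 (v t))) ^ 2 := by
        rw [mul_pow, Real.sq_sqrt hA0]
      rw [h6]
      exact sq_le_sq' (by linarith [(abs_le.1 h5).1]) (abs_le.1 h5).2
    have h5 : SV n (fun y i => v t y i - TT g (v t) y i) x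
        ≤ ∑ _i : Fin 3, CH * (Hc ^ n * n.factorial) ^ 2 * (8 * (CD ^ 2 * A2 0 4 (v t))) :=
      Finset.sum_le_sum fun i _ => h4 i
    simp only [Finset.sum_const, Finset.card_univ, Fintype.card_fin] at h5
    refine h5.trans (le_of_eq ?_)
    norm_num
    ring
  have h4 := mul_le_mul_of_nonneg_right r3 hA0
  have h7 : SV n (v t) x ≤ 2 * (c1 ^ (n + 1) * n.factorial) ^ 2
      + 2 * (24 * (CH * (Hc ^ n * n.factorial) ^ 2) * CD ^ 2 * A2 0 4 (v t)) := by linarith
  refine h7.trans ?_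
  have e8 : 2 * (24 * (CH * (Hc ^ n * n.factorial) ^ 2) * CD ^ 2 * A2 0 4 (v t))
      = 48 * CH * CD ^ 2 * (Hc ^ n * n.factorial) ^ 2 * A2 0 4 (v t) := by ring
  rw [e8, mul_add, mul_one]
  exact add_le_add r2 h4

end weak

section smooth

open H459R3.NS W221.NS Pool.Agent.TH305.DR Pool.Agent.Y7.AN
open Pool.Agent.W583.MD (sm_pd cs_pd pd_mul' Z Z.add Z.sub Z.smul Z.sum int_cs Z_pd hd_int hcs)
open Pool.Agent.W639.MH (int_ball)
open Pool.Agent.W22.ME.TD (pd_comm lap_smooth)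
open Pool.Agent.W505.ME.TSM (JS JS.slice JS.pd JS.dt JS.comm JS.sub JS.sum JS.hd_t)

theorem t_loca (h1 : S_EAD) (h2 : S_PTA) (h3 : S_HARA) : S_LOCA := by
  obtain ⟨g, C0, hC0, hg⟩ := W221.NS.B.p_green
  obtain ⟨C', hC', H⟩ := W221.NS.B.p_hyp g C0 hg
  obtain ⟨CD, hCD, Dec⟩ := W221.NS.B.p_dec g C0 hg
  obtain ⟨ε, CL, hε, hCL, L⟩ := W221.NS.B.p_loc2
  obtain ⟨K, hK⟩ : ∃ x : ℝ, x = CL + ε + 4 / C' := ⟨_, rfl⟩
  have h4C : 0 < 4 / C' := by positivity
  have hK0 : 0 ≤ K := by rw [hK]; positivity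
  obtain ⟨A₀, hA₀, HEA⟩ := h1 K hK0
  obtain ⟨c1, hc1, HPT⟩ := h2 K A₀ hK0 hA₀
  obtain ⟨CH, Hc, hCH, hHc, HCH⟩ := h3
  have hD0 : 0 ≤ 48 * CH * CD ^ 2 := by positivity
  obtain ⟨c, hc⟩ : ∃ x : ℝ, x = 2 * c1 + Hc + 48 * CH * CD ^ 2 + 1 := ⟨_, rfl⟩
  refine ⟨ε / C', by positivity, c, by rw [hc]; linarith,
    fun v q hL hint hsmall n t ht x hx => ?_⟩
  have hle : C' * ∫ t in Ioo (-1) 0, B2 0 8 (v t) ≤ ε := by
    calc C' * ∫ t in Ioo (-1) 0, B2 0 8 (v t) ≤ C' * (ε / C') := by gcongr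
      _ = ε := by field_simp
  have hH := H v q hL ε hint hle
  have hW := L v _ _ hH
  obtain ⟨-, hWs, hSl, hGi, hGe⟩ := hH
  have hsv : ∀ i, JS (fun t y => v t y i) := fun i => contDiffOn_pi.1 hL.smooth_v i
  have hB0 : ∀ t, 0 ≤ B2 0 8 (v t) := fun t => integral_nonneg fun x =>
    Finset.sum_nonneg fun i _ => Finset.sum_nonneg fun j _ => sq_nonneg _
  have hBc : ContinuousOn (fun t => B2 0 8 (v t)) (Ioo (-1) 0) :=
    ((W221.NS.B.p_ct (-1) 0 v hL.smooth_v).1 0 8).2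
  have hGc : ContinuousOn (fun t => C' * B2 0 8 (v t)) (Ioo (-1) 0) :=
    continuousOn_const.mul hBc
  have hlapH : ∀ t ∈ Ioo (-1 / 16 : ℝ) 0, ∀ x ∈ ball (0 : V) (1 / 4), ∀ i,
      lap (fun y => v t y i - TT g (v t) y i) x = 0 := by
    intro t ht x hx i
    obtain ⟨P, hP⟩ := hSl t (tIoo ht)
    have h1 := hP.lapD x (ball_subset_ball (by norm_num) hx) i
    have hvi : ContDiff ℝ ∞ (fun y => v t y i) := (hsv i).slice (tIoo ht)
    have hWi : ContDiff ℝ ∞ (fun y => TT g (v t) y i) := contDiff_pi.1 hP.sW i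
    have b3 : lap (fun y => v t y i - TT g (v t) y i) x
        = lap (fun y => v t y i) x - lap (fun y => TT g (v t) y i) x := by
      unfold lap
      rw [← Finset.sum_sub_distrib]
      refine Finset.sum_congr rfl fun j _ => ?_
      rw [pd_sub' hvi hWi, pd_sub' (sm_pd hvi j) (sm_pd hWi j)]
    rw [b3, h1, sub_self]
  have hDat : Dat K v (fun t => TT g (v t)) (fun t => C' * B2 0 8 (v t)) := by
    refine ⟨hsv, fun i => contDiffOn_pi.1 hWs i, ?_, ?_, hlapH, ?_, ?_, hGc, ?_, ?_, ?_⟩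
    · intro t ht x hx i j
      exact vort_eq hL (tIoo ht) (ball_subset_ball (by norm_num) hx) i j
    · intro t ht x hx i
      exact lap_div (fun i => (hsv i).slice (tIoo ht)) (hL.divfree t (tIoo ht))
        (ball_subset_ball (by norm_num) hx) i
    · intro t ht x hx i
      have := hW t ht x hx i
      rw [hK]
      linarith
    · intro t ht x hx i
      obtain ⟨P, hP⟩ := hSl t (tIoo ht)
      exact hP.dD x (ball_subset_ball (by norm_num) hx) i
    · intro t _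
      have := hB0 t
      positivity
    · intro b hb
      rw [intervalIntegral.integral_of_le hb.1.le, integral_Ioc_eq_integral_Ioo]
      have h1 : ∫ t in Ioo (-1 / 16 : ℝ) b, C' * B2 0 8 (v t)
          ≤ ∫ t in Ioo (-1 : ℝ) 0, C' * B2 0 8 (v t) := by
        apply setIntegral_mono_set hGi
        · refine Eventually.of_forall fun t => ?_
          show (0 : ℝ) ≤ C' * B2 0 8 (v t)
          have := hB0 t
          positivity
        · exact (Ioo_subset_Ioo (by norm_num) hb.2.le).eventuallyLE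
      rw [hK]
      linarith
    · intro t ht
      have h1 := NT0_le (v := v t) (fun i => (hsv i).slice (tIoo ht))
      have h2 : 4 * B2 0 8 (v t) ≤ K * (C' * B2 0 8 (v t)) := by
        have h3 : 4 / C' ≤ K := by rw [hK]; linarith
        have h4 : 4 / C' * (C' * B2 0 8 (v t)) ≤ K * (C' * B2 0 8 (v t)) :=
          mul_le_mul_of_nonneg_right h3 (by
            have := hB0 t
            positivity)
        have h5 : 4 / C' * (C' * B2 0 8 (v t)) = 4 * B2 0 8 (v t) := by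
          field_simp
        linarith
      exact h1.trans h2
  have ht16 : t ∈ Ioo (-1 / 16 : ℝ) 0 := ⟨by linarith [ht.1], ht.2⟩
  have hA0 : 0 ≤ A2 0 4 (v t) := integral_nonneg fun x => Finset.sum_nonneg fun i _ => sq_nonneg _
  have hβ : ∃ β ∈ Ioo (-1 / 128 : ℝ) 0, t < β := by
    refine ⟨max (t / 2) (-1 / 256), ⟨?_, ?_⟩, ?_⟩
    · exact lt_of_lt_of_le (by norm_num) (le_max_right _ _)
    · exact max_lt (by linarith [ht.2]) (by norm_num)
    · exact lt_of_lt_of_le (by linarith [ht.2]) (le_max_left _ _)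
  obtain ⟨β, hβ, htβ⟩ := hβ
  have hEA := HEA v _ _ hDat β hβ
  have htH : t - β ∈ Ioo (-3 / 64 : ℝ) 0 := ⟨by linarith [ht.1, hβ.2], by linarith⟩
  have hP := HPT _ _ _ _ hEA n (t - β) htH (by linarith [ht.1, hβ.2]) x hx
  simp only [sub_add_cancel] at hP
  have hf0 : (0 : ℝ) ≤ n.factorial := Nat.cast_nonneg _
  obtain ⟨r1, r2, r3⟩ := fin_real hc1 hHc hD0 hf0 hc n
  refine ⟨hP.1.trans r1, ?_⟩
  have h1 := SV_split n hDat ht16 x
  have h2 := hP.2
  have h3 : SV n (fun y i => v t y i - TT g (v t) y i) x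
      ≤ 24 * (CH * (Hc ^ n * n.factorial) ^ 2) * CD ^ 2 * A2 0 4 (v t) := by
    have p3 : 0 ≤ CH * (Hc ^ n * n.factorial) ^ 2 := by positivity
    have h4 : ∀ i, SS n (fun y => v t y i - TT g (v t) y i) x
        ≤ CH * (Hc ^ n * n.factorial) ^ 2 * (8 * (CD ^ 2 * A2 0 4 (v t))) := by
      intro i
      have hs : ContDiff ℝ ∞ (fun y => v t y i - TT g (v t) y i) :=
        (hDat.cv ht16 i).sub (hDat.cW ht16 i)
      refine (HCH n _ hs (fun x hx => hlapH t ht16 x hx i) x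
        (ball_subset_ball (by norm_num) hx)).trans ?_
      apply mul_le_mul_of_nonneg_left _ p3
      apply N0_le (by norm_num) (by positivity) hs
      intro y hy
      have h5 := ((Dec (v t) (contDiff_pi.2 (hDat.cv ht16)) (hL.divfree t (tIoo ht16))).2.2.2 y
        (ball_subset_ball (by norm_num) hy) i).1
      have h6 : CD ^ 2 * A2 0 4 (v t) = (CD * √(A2 0 4 (v t))) ^ 2 := by
        rw [mul_pow, Real.sq_sqrt hA0]
      rw [h6]
      exact sq_le_sq' (by linarith [(abs_le.1 h5).1]) (abs_le.1 h5).2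
    have h5 : SV n (fun y i => v t y i - TT g (v t) y i) x
        ≤ ∑ _i : Fin 3, CH * (Hc ^ n * n.factorial) ^ 2 * (8 * (CD ^ 2 * A2 0 4 (v t))) :=
      Finset.sum_le_sum fun i _ => h4 i
    simp only [Finset.sum_const, Finset.card_univ, Fintype.card_fin] at h5
    refine h5.trans (le_of_eq ?_)
    norm_num
    ring
  have h4 := mul_le_mul_of_nonneg_right r3 hA0
  have h7 : SV n (v t) x ≤ 2 * (c1 ^ (n + 1) * n.factorial) ^ 2
      + 2 * (24 * (CH * (Hc ^ n * n.factorial) ^ 2) * CD ^ 2 * A2 0 4 (v t)) := by linarith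
  refine h7.trans ?_
  have e8 : 2 * (24 * (CH * (Hc ^ n * n.factorial) ^ 2) * CD ^ 2 * A2 0 4 (v t))
      = 48 * CH * CD ^ 2 * (Hc ^ n * n.factorial) ^ 2 * A2 0 4 (v t) := by ring
  rw [e8, mul_add, mul_one]
  exact add_le_add r2 h4

end smooth

end Pool.Agent.Y302.AN
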