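import Pool.Agent.Y7.AN.Stm

/-!
Analytic bounds: pointwise bounds from the induction (helper302, job AN-PTA).
-/

set_option autoImplicit false
set_option linter.unusedVariables false

open MeasureTheory Set Metric Filter Topology
open scoped ContDiff

namespace Pool.Agent.Y302.AN

open H459R3.NS W221.NS Pool.Agent.TH305.DR Pool.Agent.Y7.WD Pool.Agent.Y7.AN

lemma fac3 (n : ℕ) : ((n + 3).factorial : ℝ) ≤ 6 * 4 ^ n * n.factorial := by
  induction n with
  | zero => norm_num [Nat.factorial]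
  | succ n ih =>
    have e1 : ((n + 1 + 3).factorial : ℝ) = (n + 4) * (n + 3).factorial := by
      rw [show n + 1 + 3 = (n + 3) + 1 from rfl, Nat.factorial_succ]
      push_cast
      ring
    have e2 : ((n + 1).factorial : ℝ) = (n + 1) * n.factorial := by
      rw [Nat.factorial_succ]
      push_cast
      ring
    rw [e1, e2]
    have h0 : (0 : ℝ) ≤ 6 * 4 ^ n * n.factorial := by positivity
    have hn : (0 : ℝ) ≤ n := Nat.cast_nonneg n
    calc ((n : ℝ) + 4) * (n + 3).factorial ≤ (n + 4) * (6 * 4 ^ n * n.factorial) :=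
          mul_le_mul_of_nonneg_left ih (by positivity)
      _ ≤ (4 * (n + 1)) * (6 * 4 ^ n * n.factorial) :=
          mul_le_mul_of_nonneg_right (by linarith) h0
      _ = 6 * 4 ^ (n + 1) * ((n + 1) * n.factorial) := by rw [pow_succ]; ring

lemma tb_le {A B : ℝ} (hA : 1 ≤ A) (hB : 1 ≤ B) (n k : ℕ) (hk : k ≤ n + 3) :
    TB A B (1 / 32) k ≤ (A * (32 * B) ^ (n + 3) * (6 * 4 ^ n * n.factorial)) ^ 2 := by
  unfold TB
  have e : B / (1 / 32) = 32 * B := by ring
  rw [e]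
  have hb : (1 : ℝ) ≤ 32 * B := by linarith
  have hb0 : (0 : ℝ) ≤ 32 * B := by linarith
  have hA0 : (0 : ℝ) ≤ A := by linarith
  have hk1 : (1 : ℝ) ≤ (k : ℝ) + 1 := by
    have : (0 : ℝ) ≤ k := Nat.cast_nonneg k
    linarith
  have h1 : (32 * B) ^ k * (k.factorial : ℝ) / (k + 1) ≤ (32 * B) ^ k * k.factorial :=
    div_le_self (by positivity) hk1
  have h2 : (32 * B) ^ k ≤ (32 * B) ^ (n + 3) := pow_le_pow_right₀ hb hk
  have h3 : (k.factorial : ℝ) ≤ 6 * 4 ^ n * n.factorial :=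
    le_trans (by exact_mod_cast Nat.factorial_le hk) (fac3 n)
  have h4 : (32 * B) ^ k * (k.factorial : ℝ) ≤ (32 * B) ^ (n + 3) * (6 * 4 ^ n * n.factorial) :=
    mul_le_mul h2 h3 (by positivity) (by positivity)
  apply pow_le_pow_left₀ (by positivity)
  calc A * ((32 * B) ^ k * (k.factorial : ℝ) / (k + 1))
      ≤ A * ((32 * B) ^ (n + 3) * (6 * 4 ^ n * n.factorial)) :=
        mul_le_mul_of_nonneg_left (h1.trans h4) hA0
    _ = A * (32 * B) ^ (n + 3) * (6 * 4 ^ n * n.factorial) := by ring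

/-- Pointwise analytic bounds. -/
theorem t_pta (hI : S_IND) : S_PTA := by
  intro K A₀ hK hA₀
  obtain ⟨A, B, hA, hB, HI⟩ := hI K A₀ hK hA₀
  obtain ⟨C, hC, HC⟩ := pointN (ρ' := 1 / 16) (ρ := 3 / 32) (by norm_num) (by norm_num)
    (by norm_num)
  obtain ⟨C', hC'⟩ : ∃ x : ℝ, x = C * (4 + 24 * K ^ 2) := ⟨_, rfl⟩
  have hC'0 : 0 ≤ C' := by rw [hC']; positivity
  obtain ⟨P, hP⟩ : ∃ x : ℝ, x = C' + 1 := ⟨_, rfl⟩
  have hP1 : 1 ≤ P := by rw [hP]; linarith
  have hPC : C' ≤ P ^ 2 := by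
    rw [hP]
    nlinarith
  have hA0 : (0 : ℝ) ≤ A := by linarith
  have hB0 : (0 : ℝ) ≤ B := by linarith
  have hb : (1 : ℝ) ≤ 32 * B := by linarith
  have hP0 : (0 : ℝ) ≤ P := by linarith
  have hc0 : 0 ≤ 6 * P * A * (32 * B) ^ 3 := by positivity
  refine ⟨6 * P * A * (32 * B) ^ 3 + 4 * (32 * B), by linarith, fun H v W G hE n t ht ht32 x hx => ?_⟩
  have hsd := hE.sd t ht
  obtain ⟨E, hEdef⟩ : ∃ x : ℝ, x = A * (32 * B) ^ (n + 3) * (6 * 4 ^ n * n.factorial) := ⟨_, rfl⟩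
  have hf1 : (1 : ℝ) ≤ n.factorial := by exact_mod_cast Nat.one_le_iff_ne_zero.2 (Nat.factorial_ne_zero n)
  have hE1 : 1 ≤ E := by
    rw [hEdef]
    have a1 : (1 : ℝ) ≤ (32 * B) ^ (n + 3) := one_le_pow₀ hb
    have a2 : (1 : ℝ) ≤ 4 ^ n := one_le_pow₀ (by norm_num)
    have a3 : (1 : ℝ) ≤ 6 * 4 ^ n := by linarith
    have a4 : (1 : ℝ) ≤ 6 * 4 ^ n * n.factorial := one_le_mul_of_one_le_of_one_le a3 hf1
    exact one_le_mul_of_one_le_of_one_le (one_le_mul_of_one_le_of_one_le hA a1) a4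
  have hE0 : 0 ≤ E := by linarith
  have e32 : (1 / 8 - 1 / 32 : ℝ) = 3 / 32 := by norm_num
  have hI' : ∀ k ≤ n + 3, NT k (3 / 32) (v t) ≤ E ^ 2 ∧ NV (k + 1) (3 / 32) (W t) ≤ E ^ 2 := by
    intro k hk
    have h1 := HI H v W G hE k (1 / 32) (by norm_num) (by norm_num) t ht (by linarith)
    rw [e32] at h1
    have h2 := tb_le hA hB n k hk
    rw [← hEdef] at h2
    exact ⟨h1.1.trans h2, h1.2.trans h2⟩
  have hV0 : NV 0 (3 / 32) (W t) ≤ 24 * K ^ 2 * E ^ 2 := by
    have h1 : ∀ i, N 0 (3 / 32) (fun y => W t y i) ≤ 8 * K ^ 2 := by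
      intro i
      apply N0_le (by norm_num) (sq_nonneg K) (hsd.cW i)
      intro x hx
      have := hsd.bW x (ball_subset_ball (by norm_num) hx) i
      exact sq_le_sq' (by linarith [(abs_le.1 this).1]) (abs_le.1 this).2
    have h2 : NV 0 (3 / 32) (W t) ≤ ∑ _i : Fin 3, 8 * K ^ 2 := Finset.sum_le_sum fun i _ => h1 i
    simp only [Finset.sum_const, Finset.card_univ, Fintype.card_fin] at h2
    have h3 : (1 : ℝ) ≤ E ^ 2 := one_le_pow₀ hE1
    have h4 : NV 0 (3 / 32) (W t) ≤ 24 * K ^ 2 := by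
      refine h2.trans (le_of_eq ?_)
      norm_num
      ring
    refine h4.trans ?_
    exact le_mul_of_one_le_right (by positivity) h3
  have hV : ∀ k ≤ n + 3, NV k (3 / 32) (W t) ≤ (1 + 24 * K ^ 2) * E ^ 2 ∧
      (1 ≤ k → NV k (3 / 32) (W t) ≤ E ^ 2) := by
    intro k hk
    have hE2 : 0 ≤ E ^ 2 := sq_nonneg E
    have hKE : 0 ≤ 24 * K ^ 2 * E ^ 2 := by positivity
    rcases Nat.eq_zero_or_pos k with h | h
    · subst h
      refine ⟨by linarith, fun h => absurd h (by norm_num)⟩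
    · obtain ⟨m, rfl⟩ : ∃ m, k = m + 1 := ⟨k - 1, by omega⟩
      have := (hI' m (by omega)).2
      exact ⟨by linarith, fun _ => this⟩
  have hfin : ∀ y : ℝ, y ≤ C' * E ^ 2 →
      y ≤ ((6 * P * A * (32 * B) ^ 3 + 4 * (32 * B)) ^ (n + 1) * n.factorial) ^ 2 := by
    intro y hy
    have h1 : y ≤ (P * E) ^ 2 := by
      rw [mul_pow]
      exact hy.trans (mul_le_mul_of_nonneg_right hPC (sq_nonneg E))
    refine h1.trans ?_
    apply pow_le_pow_left₀ (by positivity)
    have h2 : P * E = 6 * P * A * (32 * B) ^ 3 * (4 * (32 * B)) ^ n * n.factorial := by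
      rw [hEdef, mul_pow 4 (32 * B) n, pow_add]
      ring
    rw [h2]
    apply mul_le_mul_of_nonneg_right _ (by positivity)
    have h3 : 0 ≤ 6 * P * A * (32 * B) ^ 3 + 4 * (32 * B) := by linarith
    calc 6 * P * A * (32 * B) ^ 3 * (4 * (32 * B)) ^ n
        ≤ (6 * P * A * (32 * B) ^ 3 + 4 * (32 * B)) *
          (6 * P * A * (32 * B) ^ 3 + 4 * (32 * B)) ^ n :=
          mul_le_mul (by linarith) (pow_le_pow_left₀ (by positivity) (by linarith) n)
            (by positivity) h3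
      _ = (6 * P * A * (32 * B) ^ 3 + 4 * (32 * B)) ^ (n + 1) := (pow_succ' _ n).symm
  refine ⟨?_, ?_⟩
  · apply hfin
    have h2 : ST n (v t) x ≤ ∑ p : Fin 3 × Fin 3, C * (N n (3 / 32) (Om p.1 p.2 (v t))
        + N (n + 1) (3 / 32) (Om p.1 p.2 (v t)) + N (n + 2) (3 / 32) (Om p.1 p.2 (v t))
        + N (n + 3) (3 / 32) (Om p.1 p.2 (v t))) :=
      Finset.sum_le_sum fun p _ => HC n _ (om_sm (fun i => hsd.cv i) p.1 p.2) x hx
    have h1 : ST n (v t) x ≤ C * (NT n (3 / 32) (v t) + NT (n + 1) (3 / 32) (v t)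
        + NT (n + 2) (3 / 32) (v t) + NT (n + 3) (3 / 32) (v t)) := by
      refine h2.trans (le_of_eq ?_)
      rw [← Finset.mul_sum, Finset.sum_add_distrib, Finset.sum_add_distrib, Finset.sum_add_distrib]
      rfl
    have a0 := (hI' n (by omega)).1
    have a1 := (hI' (n + 1) (by omega)).1
    have a2 := (hI' (n + 2) (by omega)).1
    have a3 := (hI' (n + 3) (by omega)).1
    have h3 := mul_le_mul_of_nonneg_left (add_le_add (add_le_add (add_le_add a0 a1) a2) a3) hC.le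
    refine (h1.trans h3).trans ?_
    rw [hC']
    have h4 : 0 ≤ C * (24 * K ^ 2) * E ^ 2 := by positivity
    nlinarith
  · apply hfin
    have h2 : SV n (W t) x ≤ ∑ i, C * (N n (3 / 32) (fun y => W t y i)
        + N (n + 1) (3 / 32) (fun y => W t y i) + N (n + 2) (3 / 32) (fun y => W t y i)
        + N (n + 3) (3 / 32) (fun y => W t y i)) :=
      Finset.sum_le_sum fun i _ => HC n _ (hsd.cW i) x hx
    have h1 : SV n (W t) x ≤ C * (NV n (3 / 32) (W t) + NV (n + 1) (3 / 32) (W t)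
        + NV (n + 2) (3 / 32) (W t) + NV (n + 3) (3 / 32) (W t)) := by
      refine h2.trans (le_of_eq ?_)
      rw [← Finset.mul_sum, Finset.sum_add_distrib, Finset.sum_add_distrib, Finset.sum_add_distrib]
      rfl
    have a0 := (hV n (by omega)).1
    have a1 := (hV (n + 1) (by omega)).2 (by omega)
    have a2 := (hV (n + 2) (by omega)).2 (by omega)
    have a3 := (hV (n + 3) (by omega)).2 (by omega)
    have h3 := mul_le_mul_of_nonneg_left (add_le_add (add_le_add (add_le_add a0 a1) a2) a3) hC.le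
    refine (h1.trans h3).trans (le_of_eq ?_)
    rw [hC']
    ring

end Pool.Agent.Y302.AN
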